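import Mathlib
import Pool.Agent.R718.SB4

/-!
# MP_520f25_al, Q1: a skew brace with perfect additive group and almost simple, non-perfect
multiplicative group

The additive group is `PSL_5(F) × A_5` with `F` the field with `2^12` elements, and the
multiplicative group is `PSL_5(F) ⋊ (C_5 ⋊ C_12) = PΓL_5(F)`. The group `C_5 ⋊ C_12` acts
faithfully by outer automorphisms on `PSL_5(F)` and acts simply transitively on `A_5` inside the
holomorph of `A_5`.
-/

set_option autoImplicit false

namespace Pool.Agent.Results.MP_520f25_al.PGammaL5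

open Pool.Agent.R718.SB

/-- There is a finite skew brace whose additive group is perfect and whose multiplicative group is
almost simple but not perfect. -/
theorem result :
    ∃ (B : Type) (_ : Finite B) (_ : AddGroup B) (_ : Group B),
      (∀ a b c : B, a * (b + c) = a * b - a + a * c) ∧
      AddSubgroup.closure {x : B | ∃ a b : B, x = a + b - a - b} = ⊤ ∧
      (∃ N : Subgroup B, N.Normal ∧ IsSimpleGroup N ∧ (∃ a ∈ N, ∃ b ∈ N, a * b ≠ b * a) ∧
        Subgroup.centralizer (N : Set B) = ⊥) ∧
      commutator B ≠ ⊤ := by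
  have hF : Nat.card (GaloisField 2 12) = 4096 := by
    rw [GaloisField.card 2 12 (by norm_num)]
    norm_num
  obtain ⟨c, hc'⟩ := IsCyclic.exists_generator (α := (GaloisField 2 12)ˣ)
  have hc : orderOf c = 4095 := by
    rw [orderOf_eq_card_of_forall_mem_zpowers hc', Nat.card_units, hF]
  have hS : IsSimpleGroup (SL5 (GaloisField 2 12) ⧸ Subgroup.center (SL5 (GaloisField 2 12))) :=
    Pool.Agent.H463R3.PSLn.isSimpleGroup_PSL (ι := ZMod 5) (F := GaloisField 2 12) (by decide)
  have hSn : ∃ a b : SL5 (GaloisField 2 12) ⧸ Subgroup.center (SL5 (GaloisField 2 12)),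
      a * b ≠ b * a := by
    by_contra hcon
    push Not at hcon
    have h1 : commutator (SL5 (GaloisField 2 12) ⧸ Subgroup.center (SL5 (GaloisField 2 12))) = ⊤ :=
      Pool.Agent.H463R3.PSLn.PSL_commutator_eq_top (ι := ZMod 5) (F := GaloisField 2 12) (by decide)
    have h2 : commutator (SL5 (GaloisField 2 12) ⧸ Subgroup.center (SL5 (GaloisField 2 12))) =
        ⊥ := by
      rw [commutator_def, Subgroup.commutator_eq_bot_iff_le_centralizer]
      intro x _
      rw [Subgroup.mem_centralizer_iff]
      intro y _
      exact hcon y x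
    rw [h2] at h1
    exact bot_ne_top h1
  have hT : commutator (alternatingGroup (Fin 5)) = ⊤ := by
    have h1 : IsSimpleGroup (alternatingGroup (Fin 5)) := alternatingGroup.isSimpleGroup_five
    refine perfect_of_simple ?_
    refine ⟨⟨Equiv.swap 0 1 * Equiv.swap 1 2, by rw [Equiv.Perm.mem_alternatingGroup]; decide⟩,
      ⟨Equiv.swap 0 1 * Equiv.swap 2 3, by rw [Equiv.Perm.mem_alternatingGroup]; decide⟩, ?_⟩
    intro h
    have h2 := congrArg Subtype.val h
    revert h2
    decide
  exact construct (th c hc hF) lam γ γ_mul hS hSn hT (outer c hc hF) commQ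

end Pool.Agent.Results.MP_520f25_al.PGammaL5
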